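import Mathlib

/-! Sequences `f (T^k x)` in finite dimensions as exponential polynomials. -/

namespace Pool.Agent.X187.WN

open Polynomial Module

variable {V : Type} [AddCommGroup V] [Module ℂ V]

/-- nontrivial Jordan block -/
def Jord (T : End ℂ V) (l : ℂ) : Prop :=
  LinearMap.ker ((T - l • 1) ^ 2) ≠ LinearMap.ker (T - l • 1)

/-- `a k = ∑ g_l(k) l^k` for large `k`, with conditions -/
def Rep (T : End ℂ V) (a : ℕ → ℂ) : Prop :=
  ∃ g : ℂ →₀ ℂ[X], (∀ l ∈ g.support, l ≠ 0 ∧ T.HasEigenvalue l ∧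
      (1 ≤ (g l).natDegree → Jord T l)) ∧
    ∃ K, ∀ k ≥ K, a k = g.sum fun l p => p.eval (k : ℂ) * l ^ k

lemma Rep.zero (T : End ℂ V) {a : ℕ → ℂ} {K : ℕ} (h : ∀ k ≥ K, a k = 0) : Rep T a :=
  ⟨0, by simp, K, fun k hk => by simp [h k hk]⟩

lemma Rep.add {T : End ℂ V} {a b : ℕ → ℂ} (ha : Rep T a) (hb : Rep T b) :
    Rep T (fun k => a k + b k) := by
  classical
  obtain ⟨g, hg, K, hK⟩ := ha
  obtain ⟨g', hg', K', hK'⟩ := hb
  refine ⟨g + g', fun l hl => ?_, max K K', fun k hk => ?_⟩
  · have h1 := Finsupp.support_add hl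
    rw [Finset.mem_union] at h1
    have hl0 : l ≠ 0 := h1.elim (fun h => (hg l h).1) fun h => (hg' l h).1
    have hle : T.HasEigenvalue l := h1.elim (fun h => (hg l h).2.1) fun h => (hg' l h).2.1
    refine ⟨hl0, hle, fun hd => ?_⟩
    rw [Finsupp.add_apply] at hd
    have h2 := hd.trans (natDegree_add_le _ _)
    rcases le_max_iff.1 h2 with h3 | h3
    · refine (hg l ?_).2.2 h3
      rw [Finsupp.mem_support_iff]; rintro h4; rw [h4] at h3; simp at h3
    · refine (hg' l ?_).2.2 h3
      rw [Finsupp.mem_support_iff]; rintro h4; rw [h4] at h3; simp at h3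
  · show a k + b k = _
    rw [Finsupp.sum_add_index', hK k (le_trans (le_max_left _ _) hk),
      hK' k (le_trans (le_max_right _ _) hk)]
    · intro l; simp
    · intro l p p'; rw [eval_add, add_mul]

lemma Rep.single {T : End ℂ V} {a : ℕ → ℂ} {l : ℂ} (hl : l ≠ 0) (he : T.HasEigenvalue l)
    (p : ℂ[X]) (hp : 1 ≤ p.natDegree → Jord T l) {K : ℕ}
    (h : ∀ k ≥ K, a k = p.eval (k : ℂ) * l ^ k) : Rep T a := by
  classical
  refine ⟨Finsupp.single l p, fun l' hl' => ?_, K, fun k hk => ?_⟩
  · have h1 : l' = l := by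
      have := Finsupp.support_single_subset hl'
      simpa using this
    subst h1
    exact ⟨hl, he, by rwa [Finsupp.single_eq_same]⟩
  · rw [Finsupp.sum_single_index (by simp), h k hk]

lemma pow_apply_of_ker {T : End ℂ V} {l : ℂ} {x : V} (h : (T - l • 1) x = 0) (k : ℕ) :
    (T ^ k) x = l ^ k • x := by
  have h1 : T x = l • x := by
    have := h
    rw [LinearMap.sub_apply, LinearMap.smul_apply, Module.End.one_apply, sub_eq_zero] at this
    exact this
  induction k with
  | zero => simp
  | succ k ih => rw [pow_succ', Module.End.mul_apply, ih, map_smul, h1, smul_smul, pow_succ]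

lemma ker_of_not_jord {T : End ℂ V} {l : ℂ} (h : ¬ Jord T l) (n : ℕ) :
    ∀ y : V, ((T - l • 1) ^ (n + 1)) y = 0 → (T - l • 1) y = 0 := by
  rw [Jord, not_not] at h
  induction n with
  | zero => intro y hy; simpa using hy
  | succ n ih =>
    intro y hy
    rw [pow_succ, Module.End.mul_apply] at hy
    have h1 := ih _ hy
    have h2 : y ∈ LinearMap.ker ((T - l • 1) ^ 2) := by
      rw [LinearMap.mem_ker, pow_two, Module.End.mul_apply]; exact h1
    rw [h] at h2
    exact h2

lemma pow_apply_of_genker {T : End ℂ V} {l : ℂ} {x : V} {N : ℕ}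
    (h : ((T - l • 1) ^ N) x = 0) (k : ℕ) (hk : N ≤ k) :
    (T ^ k) x = ∑ m ∈ Finset.range N, ((k.choose m : ℂ) * l ^ (k - m)) • ((T - l • 1) ^ m) x := by
  have h0 : T = (T - l • 1) + l • 1 := by abel
  have hc : Commute (T - l • 1) (l • (1 : End ℂ V)) := (Commute.one_right _).smul_right _
  have hz : ∀ m, N ≤ m → ((T - l • 1) ^ m) x = 0 := fun m hm => by
    obtain ⟨j, rfl⟩ := Nat.exists_eq_add_of_le hm
    rw [add_comm, pow_add, Module.End.mul_apply, h, map_zero]
  have h1 : (T ^ k) x = ∑ m ∈ Finset.range (k + 1),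
      ((k.choose m : ℂ) * l ^ (k - m)) • ((T - l • 1) ^ m) x := by
    conv_lhs => rw [h0, hc.add_pow]
    rw [LinearMap.sum_apply]
    refine Finset.sum_congr rfl fun m _ => ?_
    rw [_root_.smul_pow, one_pow, mul_smul_comm, mul_one]
    have : ((l ^ (k - m) • (T - l • 1) ^ m) * (k.choose m : End ℂ V)) x
        = (k.choose m : ℂ) • (l ^ (k - m) • ((T - l • 1) ^ m) x) := by
      rw [← Nat.cast_comm, Module.End.mul_apply, Module.End.natCast_apply, LinearMap.smul_apply,
        Nat.cast_smul_eq_nsmul]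
    rw [this, smul_smul]
  rw [h1]
  symm
  refine Finset.sum_subset (Finset.range_mono (by omega)) fun m _ hm => ?_
  rw [Finset.mem_range, not_lt] at hm
  rw [hz m hm, smul_zero]

lemma rep_of_mem (T : End ℂ V) (f : V →ₗ[ℂ] ℂ) {l : ℂ} {x : V} (hx : x ∈ T.maxGenEigenspace l) :
    Rep T fun k => f ((T ^ k) x) := by
  obtain ⟨N, hN⟩ := (Module.End.mem_maxGenEigenspace T l x).1 hx
  by_cases hl : l = 0
  · subst hl
    refine Rep.zero T (K := N) fun k hk => ?_
    obtain ⟨j, rfl⟩ := Nat.exists_eq_add_of_le hk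
    rw [zero_smul, sub_zero] at hN
    rw [add_comm, pow_add, Module.End.mul_apply, hN, map_zero, map_zero]
  by_cases hx0 : x = 0
  · subst hx0
    exact Rep.zero T (K := 0) fun k _ => by rw [map_zero, map_zero]
  have he : T.HasEigenvalue l := by
    rw [Module.End.hasEigenvalue_iff, Ne, Module.End.eigenspace_def]
    intro hker
    have hinj : Function.Injective (T - algebraMap ℂ (End ℂ V) l) := LinearMap.ker_eq_bot.1 hker
    rw [Algebra.algebraMap_eq_smul_one] at hinj
    have hkill : ∀ N : ℕ, ∀ y, ((T - l • 1) ^ N) y = 0 → y = 0 := by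
      intro N
      induction N with
      | zero => intro y hy; simpa using hy
      | succ N ih =>
        intro y hy
        rw [pow_succ, Module.End.mul_apply] at hy
        exact hinj ((ih _ hy).trans (map_zero _).symm)
    exact hx0 (hkill N x hN)
  by_cases hj : Jord T l
  · refine Rep.single hl he (∑ m ∈ Finset.range N,
      C (f (((T - l • 1) ^ m) x) * (l ^ m)⁻¹ * ((m.factorial : ℂ))⁻¹) * descPochhammer ℂ m)
      (fun _ => hj) (K := N) fun k hk => ?_
    rw [pow_apply_of_genker hN k hk, map_sum, eval_finsetSum, Finset.sum_mul]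
    refine Finset.sum_congr rfl fun m hm => ?_
    have hmk : m ≤ k := by rw [Finset.mem_range] at hm; omega
    rw [map_smul, smul_eq_mul, eval_mul, eval_C, descPochhammer_eval_eq_descFactorial,
      Nat.descFactorial_eq_factorial_mul_choose, Nat.cast_mul]
    have h1 : l ^ k = l ^ (k - m) * l ^ m := by rw [← pow_add, Nat.sub_add_cancel hmk]
    have h2 : (m.factorial : ℂ) ≠ 0 := by exact_mod_cast m.factorial_ne_zero
    have h3 : l ^ m ≠ 0 := pow_ne_zero _ hl
    rw [h1]
    field_simp
  · have h1 : (T - l • 1) x = 0 := by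
      rcases N with _ | N
      · simp only [pow_zero, Module.End.one_apply] at hN; exact absurd hN hx0
      · exact ker_of_not_jord hj N x hN
    refine Rep.single hl he (C (f x)) (fun h => by simp at h) (K := 0) fun k _ => ?_
    rw [pow_apply_of_ker h1, map_smul, smul_eq_mul, eval_C, mul_comm]

theorem rep_all [FiniteDimensional ℂ V] (T : End ℂ V) (f : V →ₗ[ℂ] ℂ) (x : V) :
    Rep T fun k => f ((T ^ k) x) := by
  have hx : x ∈ ⨆ l, T.maxGenEigenspace l := by
    rw [Module.End.iSup_maxGenEigenspace_eq_top]; trivial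
  induction hx using Submodule.iSup_induction' with
  | mem l x hx => exact rep_of_mem T f hx
  | zero => exact Rep.zero T (K := 0) fun k _ => by rw [map_zero, map_zero]
  | add x y _ _ hx hy =>
    have := hx.add hy
    simpa only [map_add] using this

end Pool.Agent.X187.WN
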