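import Pool.Agent.X187.WN.Thin
import Pool.Agent.X187.WN.Seq

/-! Auxiliary facts: residue classes, density, exponents. -/

namespace Pool.Agent.X187.WN

open Polynomial Filter Topology

lemma Thin.congr {a b : ℕ → ℂ} (ha : Thin a) (h : a =ᶠ[atTop] b) : Thin b := by
  obtain ⟨Z, hZ, H⟩ := ha
  refine ⟨Z, hZ, fun u hu huZ => ?_⟩
  obtain ⟨ρ₀, hρ⟩ := H u hu huZ
  refine ⟨ρ₀, fun ρ hle hc => hρ ρ hle ?_⟩
  rw [mapClusterPt_iff_frequently] at hc ⊢
  intro s hs
  refine (hc s hs).mp (h.mono fun n hn hb => ?_)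
  rw [hn]; exact hb

lemma cluster_residue {a : ℕ → ℂ} {z : ℂ} (h : MapClusterPt z atTop a) {M : ℕ} (hM : 1 ≤ M) :
    ∃ s < M, MapClusterPt z atTop fun k => a (s + M * k) := by
  by_contra hcon
  push Not at hcon
  simp only [mapClusterPt_iff_frequently, not_forall, not_frequently] at hcon
  choose! U hU hev using hcon
  have hI : (⋂ s ∈ Finset.range M, U s) ∈ 𝓝 z :=
    (Filter.biInter_finset_mem _).2 fun s hs => hU s (Finset.mem_range.1 hs)
  rw [mapClusterPt_iff_frequently] at h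
  refine h _ hI ?_
  choose! K hK using fun s (hs : s < M) => eventually_atTop.1 (hev s hs)
  rw [eventually_atTop]
  refine ⟨M * (∑ s ∈ Finset.range M, K s + 1), fun n hn hmem => ?_⟩
  have hs : n % M < M := Nat.mod_lt _ (by omega)
  have hk : K (n % M) ≤ n / M := by
    have h1 : K (n % M) ≤ ∑ s ∈ Finset.range M, K s :=
      Finset.single_le_sum (f := K) (fun _ _ => Nat.zero_le _) (Finset.mem_range.2 hs)
    have h2 : ∑ s ∈ Finset.range M, K s + 1 ≤ n / M := by
      rw [Nat.le_div_iff_mul_le (by omega), mul_comm]; exact hn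
    omega
  have h3 := hK _ hs _ hk
  rw [Nat.mod_add_div] at h3
  exact h3 (Set.mem_iInter₂.1 hmem _ (Finset.mem_range.2 hs))

lemma cluster_of_dense {a : ℕ → ℂ} (h : Dense (Set.range a)) (z : ℂ) :
    MapClusterPt z atTop a := by
  rw [mapClusterPt_iff_frequently]
  intro s hs
  rw [frequently_atTop]
  intro K
  have hd : Dense (Set.range a \ (a '' Set.Iio K)) :=
    h.sdiff_finite ((Set.finite_Iio K).image a)
  obtain ⟨y, hy, hyr⟩ := hd.inter_nhds_nonempty hs
  obtain ⟨⟨k, rfl⟩, hk⟩ := hy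
  refine ⟨k, ?_, hyr⟩
  by_contra hlt
  exact hk ⟨k, not_le.1 hlt, rfl⟩

lemma circle_infinite : {u : ℂ | ‖u‖ = 1}.Infinite := by
  refine Set.infinite_of_injective_forall_mem
    (f := fun n : ℕ => (1 + n * Complex.I) / ‖(1 + n * Complex.I : ℂ)‖) ?_ ?_
  · intro n m hnm
    have hpos : ∀ n : ℕ, 0 < ‖(1 + n * Complex.I : ℂ)‖ := fun n => by
      rw [norm_pos_iff]
      intro h0
      have := congrArg Complex.re h0
      simp at this
    have e1 := congrArg Complex.re hnm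
    have e2 := congrArg Complex.im hnm
    simp only [Complex.div_ofReal_re, Complex.div_ofReal_im] at e1 e2
    simp at e1 e2
    rw [e1] at e2
    have h3 := hpos m
    have h4 : (n : ℝ) = m := by
      rw [div_eq_mul_inv, div_eq_mul_inv] at e2
      exact mul_right_cancel₀ (inv_ne_zero h3.ne') e2
    exact_mod_cast h4
  · intro n
    have hpos : 0 < ‖(1 + n * Complex.I : ℂ)‖ := by
      rw [norm_pos_iff]
      intro h0
      have := congrArg Complex.re h0
      simp at this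
    show ‖(1 + n * Complex.I) / (‖(1 + n * Complex.I : ℂ)‖ : ℂ)‖ = 1
    rw [norm_div, Complex.norm_real, norm_norm, div_self hpos.ne']

theorem not_dense_of_thin {a : ℕ → ℂ} {M : ℕ} (hM : 1 ≤ M)
    (h : ∀ s < M, Thin fun k => a (s + M * k)) : ¬ Dense (Set.range a) := by
  intro hd
  choose! Z hZ H using h
  obtain ⟨u, hu, huZ⟩ := (circle_infinite.sdiff
    ((Finset.range M).finite_toSet.biUnion fun s hs => hZ s (Finset.mem_range.1 hs))).nonempty
  have huZ' : ∀ s < M, u ∉ Z s := fun s hs hus =>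
    huZ (Set.mem_iUnion₂.2 ⟨s, by simpa using hs, hus⟩)
  choose! ρ hρ using fun s (hs : s < M) => H s hs u hu (huZ' s hs)
  obtain ⟨R, hR⟩ : ∃ R : ℝ, ∀ s < M, ρ s ≤ R := by
    obtain ⟨R, hR⟩ := ((Finset.range M).finite_toSet.image ρ).bddAbove
    exact ⟨R, fun s hs => hR ⟨s, by simpa using hs, rfl⟩⟩
  obtain ⟨s, hs, hc⟩ := cluster_residue (cluster_of_dense hd ((R : ℂ) * u)) hM
  exact hρ s hs R (hR s hs) hc

/-! ### common exponents -/

lemma common {ι : Type} (t : Finset ι) (R : ι → ℕ → Prop)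
    (hmul : ∀ i n m, R i n → R i (n * m)) (hex : ∀ i ∈ t, ∃ n ≥ 1, R i n) :
    ∃ M ≥ 1, ∀ i ∈ t, R i M := by
  classical
  induction t using Finset.induction_on with
  | empty => exact ⟨1, le_rfl, by simp⟩
  | insert a t ha ih =>
    obtain ⟨M, hM, h⟩ := ih fun i hi => hex i (Finset.mem_insert_of_mem hi)
    obtain ⟨n, hn, h'⟩ := hex a (Finset.mem_insert_self a t)
    refine ⟨M * n, Nat.mul_pos hM hn, fun i hi => ?_⟩
    rcases Finset.mem_insert.1 hi with rfl | hi
    · rw [mul_comm]; exact hmul _ _ _ h'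
    · exact hmul _ _ _ (h i hi)

/-- independence of two unimodular numbers -/
def Indep (z w : ℂ) : Prop := ∀ m n : ℤ, z ^ m * w ^ n = 1 → m = 0 ∧ n = 0

/-- infinite order -/
def InfOrd (z : ℂ) : Prop := ∀ j : ℕ, 1 ≤ j → z ^ j ≠ 1

/-- unimodular part -/
noncomputable def ang (l : ℂ) : ℂ := l / ‖l‖

lemma ang_ne {l : ℂ} (hl : l ≠ 0) : ang l ≠ 0 := by
  unfold ang
  exact div_ne_zero hl (by simpa using hl)

lemma norm_ang {l : ℂ} (hl : l ≠ 0) : ‖ang l‖ = 1 := by
  unfold ang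
  rw [norm_div, Complex.norm_real, norm_norm, div_self (by simpa using hl)]

lemma ang_pow (l : ℂ) (n : ℕ) : ang (l ^ n) = ang l ^ n := by
  unfold ang; rw [norm_pow, div_pow]; push_cast; rfl

lemma ang_mul (l : ℂ) (hl : l ≠ 0) : ang l * ‖l‖ = l := by
  unfold ang
  exact div_mul_cancel₀ _ (by simpa using hl)

lemma ang_of_norm_one {l : ℂ} (h : ‖l‖ = 1) : ang l = l := by
  unfold ang; rw [h]; simp

/-- the three requirements for a pair -/
def Req (p : ℂ × ℂ) (n : ℕ) : Prop :=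
  ((¬ InfOrd (p.1 / p.2)) → (p.1 / p.2) ^ n = 1) ∧
  ((¬ Indep (ang p.1) (ang p.2)) → InfOrd (ang p.1) → ∃ b : ℤ, ang p.2 ^ n = ang p.1 ^ b) ∧
  ((¬ InfOrd (ang p.1)) → ang p.1 ^ n = 1)

lemma Req.mul {p : ℂ × ℂ} {n : ℕ} (h : Req p n) (m : ℕ) : Req p (n * m) := by
  refine ⟨fun h1 => by rw [pow_mul, h.1 h1, one_pow], fun h1 h2 => ?_,
    fun h1 => by rw [pow_mul, h.2.2 h1, one_pow]⟩
  obtain ⟨b, hb⟩ := h.2.1 h1 h2
  exact ⟨b * m, by rw [pow_mul, hb, zpow_mul, zpow_natCast]⟩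

lemma InfOrd.zpow_ne {z : ℂ} (h : InfOrd z) {m : ℤ} (hm : m ≠ 0) : z ^ m ≠ 1 := by
  intro h1
  have h2 : z ^ m.natAbs = 1 := by
    rcases Int.natAbs_eq m with h3 | h3
    · rw [h3, zpow_natCast] at h1; exact h1
    · rw [h3, zpow_neg, inv_eq_one, zpow_natCast] at h1; exact h1
  exact h _ (by omega) h2

lemma exists_req (σ : Finset ℂ) (h0 : ∀ l ∈ σ, l ≠ 0) :
    ∃ M ≥ 1, ∀ l ∈ σ, ∀ l' ∈ σ, Req (l, l') M := by
  obtain ⟨M, hM, h⟩ := common (σ ×ˢ σ) Req (fun p n m h => h.mul m) (by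
    rintro ⟨l, l'⟩ hp
    rw [Finset.mem_product] at hp
    have hl := h0 l hp.1
    have hl' := h0 l' hp.2
    have e1 : ∃ n ≥ 1, ((¬ InfOrd (l / l')) → (l / l') ^ n = 1) := by
      by_cases h : InfOrd (l / l')
      · exact ⟨1, le_rfl, fun h' => absurd h h'⟩
      · unfold InfOrd at h; push Not at h
        obtain ⟨j, hj, hj1⟩ := h
        exact ⟨j, hj, fun _ => hj1⟩
    have e3 : ∃ n ≥ 1, ((¬ InfOrd (ang l)) → (ang l) ^ n = 1) := by
      by_cases h : InfOrd (ang l)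
      · exact ⟨1, le_rfl, fun h' => absurd h h'⟩
      · unfold InfOrd at h; push Not at h
        obtain ⟨j, hj, hj1⟩ := h
        exact ⟨j, hj, fun _ => hj1⟩
    have e2 : ∃ n ≥ 1, ((¬ Indep (ang l) (ang l')) → InfOrd (ang l) →
        ∃ b : ℤ, ang l' ^ n = ang l ^ b) := by
      by_cases h : Indep (ang l) (ang l')
      · exact ⟨1, le_rfl, fun h' => absurd h h'⟩
      by_cases h' : InfOrd (ang l)
      · unfold Indep at h; push Not at h
        obtain ⟨m, n, hmn, hne⟩ := h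
        have hn : n ≠ 0 := by
          intro hn
          rw [hn, zpow_zero, mul_one] at hmn
          by_cases hm : m = 0
          · exact hne hm hn
          · exact h'.zpow_ne hm hmn
        refine ⟨n.natAbs, by omega, fun _ _ => ?_⟩
        have h1 : ang l' ^ n = ang l ^ (-m) := by
          rw [zpow_neg]; exact eq_inv_of_mul_eq_one_right hmn
        rcases Int.natAbs_eq n with h3 | h3
        · refine ⟨-m, ?_⟩
          rw [← h1]; conv_rhs => rw [h3]
          rw [zpow_natCast]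
        · refine ⟨m, ?_⟩
          have h4 : ang l' ^ (-n) = ang l ^ m := by
            rw [zpow_neg, h1, zpow_neg, inv_inv]
          rw [← h4]; conv_rhs => rw [h3]
          rw [neg_neg, zpow_natCast]
      · exact ⟨1, le_rfl, fun _ h'' => absurd h'' h'⟩
    obtain ⟨n1, hn1, r1⟩ := e1
    obtain ⟨n2, hn2, r2⟩ := e2
    obtain ⟨n3, hn3, r3⟩ := e3
    refine ⟨n1 * n2 * n3, Nat.mul_pos (Nat.mul_pos hn1 hn2) hn3, fun h => ?_, fun h h' => ?_,
      fun h => ?_⟩
    · show (l / l') ^ _ = 1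
      rw [mul_assoc, pow_mul, r1 h, one_pow]
    · obtain ⟨b, hb⟩ := r2 h h'
      refine ⟨b * (n1 * n3 : ℕ), ?_⟩
      show ang l' ^ _ = ang l ^ _
      rw [show n1 * n2 * n3 = n2 * (n1 * n3) by ring, pow_mul, hb, zpow_mul, zpow_natCast]
    · show ang l ^ _ = 1
      rw [mul_comm, pow_mul, r3 h, one_pow])
  exact ⟨M, hM, fun l hl l' hl' => h (l, l') (Finset.mem_product.2 ⟨hl, hl'⟩)⟩

end Pool.Agent.X187.WN
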