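import Pool.Agent.X187.WN.Ax

/-! The case analysis. -/

namespace Pool.Agent.X187.WN

open Polynomial Filter Topology Module

variable {V : Type} [AddCommGroup V] [Module ℂ V]

/-- one of (C1)-(C4) -/
def Cond (T : End ℂ V) : Prop :=
  (∃ l₁ l₂ : ℂ, T.HasEigenvalue l₁ ∧ T.HasEigenvalue l₂ ∧ ‖l₁‖ = ‖l₂‖ ∧ 1 < ‖l₁‖ ∧
    Indep (ang l₁) (ang l₂)) ∨
  (∃ l₁ l₂ : ℂ, ‖l₁‖ = 1 ∧ ‖l₂‖ = 1 ∧ Indep l₁ l₂ ∧ Jord T l₁ ∧ Jord T l₂) ∨
  (∃ l₁ l₂ l₃ : ℂ, T.HasEigenvalue l₁ ∧ T.HasEigenvalue l₂ ∧ T.HasEigenvalue l₃ ∧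
    ‖l₁‖ = ‖l₂‖ ∧ ‖l₃‖ < ‖l₁‖ ∧ 1 < ‖l₃‖ ∧ InfOrd (l₁ / l₂) ∧ Indep (ang l₁) (ang l₃)) ∨
  (∃ l₁ l₂ l₃ : ℂ, T.HasEigenvalue l₁ ∧ T.HasEigenvalue l₂ ∧ ‖l₃‖ = 1 ∧ Jord T l₃ ∧
    ‖l₁‖ = ‖l₂‖ ∧ 1 < ‖l₁‖ ∧ InfOrd (l₁ / l₂) ∧ Indep (ang l₁) l₃)

/-! ### estimates -/

lemma poly_geom_zero (P : ℂ[X]) {x : ℂ} (hx : ‖x‖ < 1) :
    Tendsto (fun k : ℕ => P.eval (k : ℂ) * x ^ k) atTop (𝓝 0) := by
  have h1 : ∀ k : ℕ, P.eval (k : ℂ) * x ^ k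
      = ∑ d ∈ P.support, P.coeff d * ((k : ℂ) ^ d * x ^ k) := fun k => by
    rw [eval_eq_sum, Polynomial.sum, Finset.sum_mul]
    exact Finset.sum_congr rfl fun d _ => by ring
  simp only [h1]
  rw [← Finset.sum_const_zero (s := P.support)]
  refine tendsto_finsetSum _ fun d _ => ?_
  have h2 : Tendsto (fun k : ℕ => (k : ℂ) ^ d * x ^ k) atTop (𝓝 0) := by
    rw [tendsto_zero_iff_norm_tendsto_zero]
    have := tendsto_pow_const_mul_const_pow_of_abs_lt_one d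
      (show |‖x‖| < 1 by rwa [abs_of_nonneg (norm_nonneg _)])
    refine this.congr fun k => ?_
    rw [norm_mul, norm_pow, norm_pow, Complex.norm_natCast]
  simpa using h2.const_mul (P.coeff d)

lemma poly_lower {P : ℂ[X]} (hP : P ≠ 0) :
    ∃ c > 0, ∀ᶠ k : ℕ in atTop, c ≤ ‖P.eval (k : ℂ)‖ := by
  by_cases hd : 0 < P.degree
  · have h1 : Tendsto (fun k : ℕ => ‖P.eval (k : ℂ)‖) atTop atTop := by
      refine Polynomial.tendsto_norm_atTop P hd ?_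
      simp only [Complex.norm_natCast]
      exact tendsto_natCast_atTop_atTop
    exact ⟨1, one_pos, h1.eventually_ge_atTop 1⟩
  · have h1 : P = C (P.coeff 0) := eq_C_of_degree_le_zero (not_lt.1 hd)
    have h2 : P.coeff 0 ≠ 0 := by intro h; rw [h, C_0] at h1; exact hP h1
    refine ⟨‖P.coeff 0‖, norm_pos_iff.2 h2, Eventually.of_forall fun k => ?_⟩
    rw [h1, eval_C, coeff_C_zero]

lemma poly_bdd {P : ℂ[X]} {x : ℂ} (h : P = 0 ∨ ‖x‖ < 1 ∨ (‖x‖ = 1 ∧ P.natDegree = 0)) :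
    ∃ C, ∀ k : ℕ, ‖P.eval (k : ℂ) * x ^ k‖ ≤ C := by
  rcases h with h | h | ⟨h1, h2⟩
  · exact ⟨0, fun k => by rw [h]; simp⟩
  · have := Metric.isBounded_range_of_tendsto _ (poly_geom_zero P h)
    obtain ⟨R, hR⟩ := this.exists_norm_le
    exact ⟨R, fun k => hR _ ⟨k, rfl⟩⟩
  · rw [natDegree_eq_zero] at h2
    obtain ⟨c, rfl⟩ := h2
    exact ⟨‖c‖, fun k => by rw [eval_C, norm_mul, norm_pow, h1, one_pow, mul_one]⟩

/-! ### grouping -/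

open Classical in
/-- the grouped polynomial coefficient -/
noncomputable def PP (g : ℂ →₀ ℂ[X]) (M s : ℕ) (μ : ℂ) : ℂ[X] :=
  ∑ l ∈ g.support.filter (fun l => l ^ M = μ),
    C (l ^ s) * (g l).comp (C (s : ℂ) + C (M : ℂ) * X)

open Classical in
lemma sum_PP (g : ℂ →₀ ℂ[X]) (M s k : ℕ) :
    (g.sum fun l p => p.eval ((s + M * k : ℕ) : ℂ) * l ^ (s + M * k))
      = ∑ μ ∈ g.support.image (fun l => l ^ M), (PP g M s μ).eval (k : ℂ) * μ ^ k := by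
  rw [Finsupp.sum, ← Finset.sum_fiberwise_of_maps_to (g := fun l : ℂ => l ^ M)
    (t := g.support.image (fun l => l ^ M)) (fun l hl => Finset.mem_image_of_mem _ hl)]
  refine Finset.sum_congr rfl fun μ _ => ?_
  rw [PP, eval_finsetSum, Finset.sum_mul]
  refine Finset.sum_congr rfl fun l hl => ?_
  rw [Finset.mem_filter] at hl
  rw [eval_mul, eval_C, eval_comp, eval_add, eval_mul, eval_C, eval_C, eval_X, pow_add, pow_mul,
    hl.2]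
  push_cast
  ring

open Classical in
lemma PP_ne {g : ℂ →₀ ℂ[X]} {M s : ℕ} {μ : ℂ} (h : PP g M s μ ≠ 0) :
    ∃ l ∈ g.support, l ^ M = μ := by
  by_contra hcon
  push Not at hcon
  apply h
  rw [PP, Finset.filter_false_of_mem fun l hl => hcon l hl, Finset.sum_empty]

open Classical in
lemma PP_deg {g : ℂ →₀ ℂ[X]} {M s : ℕ} {μ : ℂ} (h : 1 ≤ (PP g M s μ).natDegree) :
    ∃ l ∈ g.support, l ^ M = μ ∧ 1 ≤ (g l).natDegree := by
  by_contra hcon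
  push Not at hcon
  have h1 : (PP g M s μ).natDegree ≤ 0 := by
    refine natDegree_sum_le_of_forall_le _ _ fun l hl => ?_
    rw [Finset.mem_filter] at hl
    have h2 : (g l).natDegree = 0 := by have := hcon l hl.1 hl.2; omega
    rw [natDegree_eq_zero] at h2
    obtain ⟨c, hc⟩ := h2
    rw [← hc, C_comp, ← C_mul, natDegree_C]
  omega

/-! ### the two alternatives -/

open Classical in
/-- the growing exponents -/
noncomputable def GG (g : ℂ →₀ ℂ[X]) (M s : ℕ) : Finset ℂ :=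
  (g.support.image (fun l => l ^ M)).filter fun μ => PP g M s μ ≠ 0 ∧
    (1 < ‖μ‖ ∨ (‖μ‖ = 1 ∧ 1 ≤ (PP g M s μ).natDegree))

lemma mem_GG {g : ℂ →₀ ℂ[X]} {M s : ℕ} {μ : ℂ} : μ ∈ GG g M s ↔
    μ ∈ g.support.image (fun l => l ^ M) ∧ PP g M s μ ≠ 0 ∧
    (1 < ‖μ‖ ∨ (‖μ‖ = 1 ∧ 1 ≤ (PP g M s μ).natDegree)) := by
  classical
  rw [GG]; convert! Finset.mem_filter using 1

theorem alternatives {T : End ℂ V} {g : ℂ →₀ ℂ[X]}
    (hg : ∀ l ∈ g.support, l ≠ 0 ∧ T.HasEigenvalue l ∧ (1 ≤ (g l).natDegree → Jord T l))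
    (hT : ¬ Cond T) {M : ℕ} (hM : 1 ≤ M)
    (hreq : ∀ l ∈ g.support, ∀ l' ∈ g.support, Req (l, l') M) (s : ℕ) :
    (∃ μ₁ ∈ GG g M s, 1 < ‖μ₁‖ ∧ ∀ μ ∈ GG g M s, μ ≠ μ₁ → ‖μ‖ < ‖μ₁‖) ∨
      ∃ ζ : ℂ, ‖ζ‖ = 1 ∧ ∀ μ ∈ GG g M s, ∃ b : ℤ, ang μ = ζ ^ b := by
  have hM0 : M ≠ 0 := by omega
  have hlift : ∀ μ ∈ GG g M s, ∃ l ∈ g.support, l ^ M = μ ∧ (‖μ‖ = 1 → Jord T l) := by
    intro μ hμ
    obtain ⟨_, h1, h2⟩ := mem_GG.1 hμ
    rcases h2 with h2 | ⟨h2, h3⟩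
    · obtain ⟨l, hl, hlM⟩ := PP_ne h1
      exact ⟨l, hl, hlM, fun h => absurd h h2.ne'⟩
    · obtain ⟨l, hl, hlM, hd⟩ := PP_deg h3
      exact ⟨l, hl, hlM, fun _ => (hg l hl).2.2 hd⟩
  choose! lf hlf hlfM hlfJ using hlift
  have hn0 : ∀ μ ∈ GG g M s, lf μ ≠ 0 := fun μ hμ => (hg _ (hlf μ hμ)).1
  have hev : ∀ μ ∈ GG g M s, T.HasEigenvalue (lf μ) := fun μ hμ => (hg _ (hlf μ hμ)).2.1
  have hnorm : ∀ μ ∈ GG g M s, ‖lf μ‖ ^ M = ‖μ‖ := fun μ hμ => by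
    rw [← norm_pow, hlfM μ hμ]
  have hgt : ∀ μ ∈ GG g M s, 1 < ‖μ‖ → 1 < ‖lf μ‖ := fun μ hμ h => by
    rw [← hnorm μ hμ] at h
    exact (one_lt_pow_iff_of_nonneg (norm_nonneg _) hM0).1 h
  have hone : ∀ μ ∈ GG g M s, ‖μ‖ = 1 → ‖lf μ‖ = 1 := fun μ hμ h => by
    rw [← hnorm μ hμ] at h
    exact (pow_eq_one_iff_of_nonneg (norm_nonneg _) hM0).1 h
  have heq : ∀ μ ∈ GG g M s, ∀ ν ∈ GG g M s, ‖μ‖ = ‖ν‖ → ‖lf μ‖ = ‖lf ν‖ := fun μ hμ ν hν h => by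
    rw [← hnorm μ hμ, ← hnorm ν hν] at h
    exact (pow_left_inj₀ (norm_nonneg _) (norm_nonneg _) hM0).1 h
  have hlt : ∀ μ ∈ GG g M s, ∀ ν ∈ GG g M s, ‖μ‖ < ‖ν‖ → ‖lf μ‖ < ‖lf ν‖ := fun μ hμ ν hν h => by
    rw [← hnorm μ hμ, ← hnorm ν hν] at h
    exact (pow_lt_pow_iff_left₀ (norm_nonneg _) (norm_nonneg _) hM0).1 h
  have hang : ∀ μ ∈ GG g M s, ang μ = ang (lf μ) ^ M := fun μ hμ => by
    rw [← ang_pow, hlfM μ hμ]
  have hdich : ∀ μ ∈ GG g M s, 1 < ‖μ‖ ∨ ‖μ‖ = 1 := fun μ hμ => by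
    obtain ⟨_, _, h⟩ := mem_GG.1 hμ
    exact h.imp id And.left
  -- infinite order of ratios
  have hinf : ∀ μ ∈ GG g M s, ∀ ν ∈ GG g M s, μ ≠ ν → InfOrd (lf μ / lf ν) := by
    intro μ hμ ν hν hne
    by_contra h
    have h1 := (hreq _ (hlf μ hμ) _ (hlf ν hν)).1 h
    simp only at h1
    rw [div_pow, hlfM μ hμ, hlfM ν hν] at h1
    have hν0 : ν ≠ 0 := by rw [← hlfM ν hν]; exact pow_ne_zero _ (hn0 ν hν)
    exact hne ((div_eq_one_iff_eq hν0).1 h1)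
  by_cases hbig : ∃ μ ∈ GG g M s, 1 < ‖μ‖
  · obtain ⟨μ₀, hμ₀, hμ₀1⟩ := hbig
    obtain ⟨μ₁, hμ₁, hmax⟩ := Finset.exists_max_image (GG g M s) (fun μ => ‖μ‖) ⟨μ₀, hμ₀⟩
    have hμ₁1 : 1 < ‖μ₁‖ := hμ₀1.trans_le (hmax μ₀ hμ₀)
    by_cases huniq : ∀ μ ∈ GG g M s, μ ≠ μ₁ → ‖μ‖ < ‖μ₁‖
    · exact Or.inl ⟨μ₁, hμ₁, hμ₁1, huniq⟩
    right
    push Not at huniq
    obtain ⟨μ₂, hμ₂, hne, hge⟩ := huniq
    have hn12 : ‖μ₂‖ = ‖μ₁‖ := le_antisymm (hmax μ₂ hμ₂) hge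
    have hmain : ∀ μa ∈ GG g M s, ∀ μb ∈ GG g M s, ‖μa‖ = ‖μ₁‖ → ‖μb‖ = ‖μ₁‖ → μa ≠ μb →
        InfOrd (ang (lf μa)) →
        ∃ ζ : ℂ, ‖ζ‖ = 1 ∧ ∀ μ ∈ GG g M s, ∃ b : ℤ, ang μ = ζ ^ b := by
      intro μa ha μb hb hna hnb hab hIa
      refine ⟨ang (lf μa), norm_ang (hn0 μa ha), fun μ hμ => ?_⟩
      rw [hang μ hμ]
      refine (hreq _ (hlf μa ha) _ (hlf μ hμ)).2.1 (fun hI => hT ?_) hIa
      simp only at hI
      rcases (hmax μ hμ).lt_or_eq with h | h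
      · rcases hdich μ hμ with h' | h'
        · exact Or.inr (Or.inr (Or.inl ⟨lf μa, lf μb, lf μ, hev _ ha, hev _ hb, hev _ hμ,
            heq _ ha _ hb (hna.trans hnb.symm), hlt _ hμ _ ha (h.trans_eq hna.symm),
            hgt _ hμ h', hinf _ ha _ hb hab, hI⟩))
        · rw [ang_of_norm_one (hone _ hμ h')] at hI
          exact Or.inr (Or.inr (Or.inr ⟨lf μa, lf μb, lf μ, hev _ ha, hev _ hb, hone _ hμ h',
            hlfJ _ hμ h', heq _ ha _ hb (hna.trans hnb.symm), hgt _ ha (hμ₁1.trans_eq hna.symm),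
            hinf _ ha _ hb hab, hI⟩))
      · exact Or.inl ⟨lf μa, lf μ, hev _ ha, hev _ hμ, heq _ ha _ hμ (hna.trans h.symm),
          hgt _ ha (hμ₁1.trans_eq hna.symm), hI⟩
    by_cases hI1 : InfOrd (ang (lf μ₁))
    · exact hmain μ₁ hμ₁ μ₂ hμ₂ rfl hn12 hne.symm hI1
    by_cases hI2 : InfOrd (ang (lf μ₂))
    · exact hmain μ₂ hμ₂ μ₁ hμ₁ hn12 rfl hne hI2
    exfalso
    have e1 := (hreq _ (hlf μ₁ hμ₁) _ (hlf μ₁ hμ₁)).2.2 hI1
    have e2 := (hreq _ (hlf μ₂ hμ₂) _ (hlf μ₂ hμ₂)).2.2 hI2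
    simp only at e1 e2
    rw [← hang μ₁ hμ₁] at e1
    rw [← hang μ₂ hμ₂] at e2
    have hμ₁0 : μ₁ ≠ 0 := by rw [← norm_pos_iff]; linarith
    have hμ₂0 : μ₂ ≠ 0 := by rw [← norm_pos_iff]; linarith
    have f1 := ang_mul μ₁ hμ₁0
    have f2 := ang_mul μ₂ hμ₂0
    rw [e1, one_mul] at f1
    rw [e2, one_mul, hn12, f1] at f2
    exact hne f2.symm
  · right
    push Not at hbig
    have hall : ∀ μ ∈ GG g M s, ‖μ‖ = 1 := fun μ hμ =>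
      (hdich μ hμ).resolve_left (not_lt.2 (hbig μ hμ))
    by_cases hI : ∃ μ₁ ∈ GG g M s, InfOrd (ang (lf μ₁))
    · obtain ⟨μ₁, hμ₁, hI1⟩ := hI
      refine ⟨ang (lf μ₁), norm_ang (hn0 _ hμ₁), fun μ hμ => ?_⟩
      rw [hang μ hμ]
      refine (hreq _ (hlf μ₁ hμ₁) _ (hlf μ hμ)).2.1 (fun hI => hT ?_) hI1
      simp only at hI
      rw [ang_of_norm_one (hone _ hμ (hall _ hμ)),
        ang_of_norm_one (hone _ hμ₁ (hall _ hμ₁))] at hI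
      exact Or.inr (Or.inl ⟨lf μ₁, lf μ, hone _ hμ₁ (hall _ hμ₁), hone _ hμ (hall _ hμ), hI,
        hlfJ _ hμ₁ (hall _ hμ₁), hlfJ _ hμ (hall _ hμ)⟩)
    · push Not at hI
      refine ⟨1, norm_one, fun μ hμ => ⟨0, ?_⟩⟩
      rw [hang μ hμ, zpow_zero]
      exact (hreq _ (hlf μ hμ) _ (hlf μ hμ)).2.2 (hI μ hμ)

/-! ### thinness of each class -/

open Classical in
theorem thin_class {T : End ℂ V} {g : ℂ →₀ ℂ[X]}
    (hg : ∀ l ∈ g.support, l ≠ 0 ∧ T.HasEigenvalue l ∧ (1 ≤ (g l).natDegree → Jord T l))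
    (hT : ¬ Cond T) {M : ℕ} (hM : 1 ≤ M)
    (hreq : ∀ l ∈ g.support, ∀ l' ∈ g.support, Req (l, l') M) (s : ℕ) :
    Thin fun k => ∑ μ ∈ g.support.image (fun l => l ^ M), (PP g M s μ).eval (k : ℂ) * μ ^ k := by
  set MM := g.support.image (fun l => l ^ M) with hMM
  have hsub : GG g M s ⊆ MM := fun μ hμ => by
    have := (mem_GG.1 hμ).1
    convert! this using 1
  have hMM0 : ∀ μ ∈ MM, μ ≠ 0 := fun μ hμ => by
    obtain ⟨l, hl, rfl⟩ := Finset.mem_image.1 hμ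
    exact pow_ne_zero _ (hg l hl).1
  have hrest : ∀ μ ∈ MM, μ ∉ GG g M s → PP g M s μ = 0 ∨ ‖μ‖ < 1 ∨
      (‖μ‖ = 1 ∧ (PP g M s μ).natDegree = 0) := by
    intro μ hμ hn
    by_contra hcon
    push Not at hcon
    obtain ⟨h1, h2, h3⟩ := hcon
    apply hn
    rw [mem_GG]
    refine ⟨by convert! hμ using 1, h1, ?_⟩
    rcases h2.lt_or_eq with h4 | h4
    · exact Or.inl h4
    · exact Or.inr ⟨h4.symm, Nat.one_le_iff_ne_zero.2 (h3 h4.symm)⟩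
  rcases alternatives hg hT hM hreq s with ⟨μ₁, hμ₁, h1, huniq⟩ | ⟨ζ, hζ, hb⟩
  · -- the norm tends to infinity
    apply thin_of_tendsto
    have hμ₁0 : μ₁ ≠ 0 := by rw [← norm_pos_iff]; linarith
    obtain ⟨c, hc, hlow⟩ := poly_lower (mem_GG.1 hμ₁).2.1
    have hothers : Tendsto (fun k : ℕ => ∑ μ ∈ MM.erase μ₁,
        (PP g M s μ).eval (k : ℂ) * (μ / μ₁) ^ k) atTop (𝓝 0) := by
      rw [← Finset.sum_const_zero (s := MM.erase μ₁)]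
      refine tendsto_finsetSum _ fun μ hμ => ?_
      obtain ⟨hne, hμM⟩ := Finset.mem_erase.1 hμ
      by_cases hP : PP g M s μ = 0
      · simp only [hP, eval_zero, zero_mul]; exact tendsto_const_nhds
      · refine poly_geom_zero _ ?_
        rw [norm_div, div_lt_one (by linarith)]
        by_cases hG : μ ∈ GG g M s
        · exact huniq μ hG hne
        · rcases hrest μ hμM hG with h | h | h
          · exact absurd h hP
          · linarith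
          · linarith [h.1]
    have hsmall : ∀ᶠ k : ℕ in atTop, ‖∑ μ ∈ MM.erase μ₁,
        (PP g M s μ).eval (k : ℂ) * (μ / μ₁) ^ k‖ < c / 2 := by
      have := hothers.norm
      rw [norm_zero] at this
      exact this.eventually_lt_const (by positivity)
    have hbase : Tendsto (fun k : ℕ => c / 2 * ‖μ₁‖ ^ k) atTop atTop :=
      (tendsto_pow_atTop_atTop_of_one_lt h1).const_mul_atTop (by positivity)
    refine tendsto_atTop_mono' _ ?_ hbase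
    filter_upwards [hlow, hsmall] with k hk1 hk2
    have h2 : ∑ μ ∈ MM, (PP g M s μ).eval (k : ℂ) * μ ^ k = μ₁ ^ k *
        ((PP g M s μ₁).eval (k : ℂ) + ∑ μ ∈ MM.erase μ₁,
          (PP g M s μ).eval (k : ℂ) * (μ / μ₁) ^ k) := by
      rw [← Finset.add_sum_erase _ _ (hsub hμ₁), mul_add, Finset.mul_sum]
      congr 1
      · ring
      · refine Finset.sum_congr rfl fun μ _ => ?_
        rw [div_pow]
        field_simp
    rw [h2, norm_mul, norm_pow, mul_comm]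
    refine mul_le_mul_of_nonneg_left ?_ (by positivity)
    have h3 := norm_sub_norm_le ((PP g M s μ₁).eval (k : ℂ))
      (-∑ μ ∈ MM.erase μ₁, (PP g M s μ).eval (k : ℂ) * (μ / μ₁) ^ k)
    rw [norm_neg, sub_neg_eq_add] at h3
    linarith
  · -- elimination
    choose! bb hbb using hb
    have hpos : ∀ μ : GG g M s, 0 < ‖(μ : ℂ)‖ := fun μ =>
      norm_pos_iff.2 (hMM0 _ (hsub μ.2))
    obtain ⟨N, D, hD, hrel⟩ := elim (ι := GG g M s)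
      (fun μ => ⟨_, poly_mem (PP g M s μ) (hpos μ)⟩)
      (fun μ => ⟨_, conj_poly_mem (PP g M s μ) (hpos μ)⟩) (fun _ _ => rfl)
      (fun μ => bb μ) hζ
    have hFeq : ∀ k : ℕ, ∑ μ : GG g M s, ((PP g M s μ).eval (k : ℂ) * ((‖(μ : ℂ)‖ : ℝ) : ℂ) ^ k) *
        (ζ ^ (bb μ)) ^ k = ∑ μ ∈ GG g M s, (PP g M s μ).eval (k : ℂ) * μ ^ k := by
      intro k
      rw [← Finset.sum_coe_sort (GG g M s)]
      refine Finset.sum_congr rfl fun μ _ => ?_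
      rw [← hbb μ μ.2, mul_assoc, ← mul_pow, mul_comm (((‖(μ : ℂ)‖ : ℝ) : ℂ)),
        ang_mul _ (hMM0 _ (hsub μ.2))]
    have hbd : ∀ μ ∈ MM \ GG g M s, ∃ C, ∀ k : ℕ, ‖(PP g M s μ).eval (k : ℂ) * μ ^ k‖ ≤ C :=
      fun μ hμ => by
        rw [Finset.mem_sdiff] at hμ
        exact poly_bdd (hrest μ hμ.1 hμ.2)
    choose! CC hCC using hbd
    have hthin := thin_of_rel (F := fun k => ∑ μ ∈ GG g M s, (PP g M s μ).eval (k : ℂ) * μ ^ k)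
      (β := fun k => ∑ μ ∈ MM \ GG g M s, (PP g M s μ).eval (k : ℂ) * μ ^ k)
      (C := ∑ μ ∈ MM \ GG g M s, CC μ)
      (fun k => (norm_sum_le _ _).trans (Finset.sum_le_sum fun μ hμ => hCC μ hμ k)) hD
      (fun k => by
        have := hrel k
        simp only at this
        rw [hFeq k] at this
        exact this)
    refine hthin.congr (Eventually.of_forall fun k => ?_)
    simp only
    rw [add_comm]
    exact Finset.sum_sdiff hsub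

/-- the main theorem, in linear-algebra form -/
theorem main [FiniteDimensional ℂ V] (T : End ℂ V) (f : V →ₗ[ℂ] ℂ) (x : V)
    (hd : Dense (Set.range fun k : ℕ => f ((T ^ k) x))) : Cond T := by
  classical
  by_contra hT
  obtain ⟨g, hg, K, hK⟩ := rep_all T f x
  obtain ⟨M, hM, hreq⟩ := exists_req g.support fun l hl => (hg l hl).1
  refine not_dense_of_thin hM (fun s _ => ?_) hd
  refine (thin_class hg hT hM hreq s).congr ?_
  filter_upwards [eventually_ge_atTop K] with k hk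
  have h1 : K ≤ s + M * k := by nlinarith
  have h2 : f ((T ^ (s + M * k)) x) = _ := hK _ h1
  rw [h2, sum_PP]

end Pool.Agent.X187.WN
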