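import Pool.Agent.X187.WN.Ring

/-! Elimination of the angle. -/

namespace Pool.Agent.X187.WN

open Polynomial Filter Topology

/-- evaluation of an element of `RR` at `k` -/
noncomputable def evk (k : ℕ) : RR →+* ℂ := (Pi.evalRingHom (fun _ : ℕ => ℂ) k).comp RR.val.toRingHom

lemma evk_apply (k : ℕ) (c : RR) : evk k c = (c : ℕ → ℂ) k := rfl

/-- evaluation of a polynomial over `RR` at `X = ζ ^ k` -/
noncomputable def ev (ζ : ℂ) (k : ℕ) : RR[X] →+* ℂ := eval₂RingHom (evk k) (ζ ^ k)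

lemma ev_C (ζ : ℂ) (k : ℕ) (c : RR) : ev ζ k (C c) = (c : ℕ → ℂ) k := by
  rw [ev, coe_eval₂RingHom, eval₂_C]; rfl

lemma ev_X (ζ : ℂ) (k : ℕ) : ev ζ k X = ζ ^ k := by
  rw [ev, coe_eval₂RingHom, eval₂_X]

theorem elim {ι : Type} [Fintype ι] (c c' : ι → RR)
    (hcc : ∀ i k, (c' i : ℕ → ℂ) k = (starRingEnd ℂ) ((c i : ℕ → ℂ) k)) (b : ι → ℤ) {ζ : ℂ}
    (hζ : ‖ζ‖ = 1) :
    ∃ (N : ℕ) (D : Fin (N + 1) × Fin (N + 1) → RR), D ≠ 0 ∧ ∀ k : ℕ,
      ∑ p, (D p : ℕ → ℂ) k * (∑ i, (c i : ℕ → ℂ) k * (ζ ^ (b i)) ^ k) ^ (p.1 : ℕ) *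
        ((starRingEnd ℂ) (∑ i, (c i : ℕ → ℂ) k * (ζ ^ (b i)) ^ k)) ^ (p.2 : ℕ) = 0 := by
  classical
  have hζ0 : ζ ≠ 0 := by rw [← norm_pos_iff, hζ]; norm_num
  obtain ⟨B, hB⟩ : ∃ B : ℕ, ∀ i, |b i| ≤ B := by
    refine ⟨∑ i, (b i).natAbs, fun i => ?_⟩
    rw [Int.abs_eq_natAbs]
    exact_mod_cast Finset.single_le_sum (f := fun i => (b i).natAbs) (fun _ _ => Nat.zero_le _)
      (Finset.mem_univ i)
  have hb1 : ∀ i, 0 ≤ b i + B := fun i => by have := abs_le.1 (hB i); omega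
  have hb2 : ∀ i, 0 ≤ B - b i := fun i => by have := abs_le.1 (hB i); omega
  set PA : RR[X] := ∑ i, C (c i) * X ^ (b i + B).toNat with hPA
  set PA' : RR[X] := ∑ i, C (c' i) * X ^ (B - b i).toNat with hPA'
  have dPA : PA.natDegree ≤ 2 * B := by
    refine natDegree_sum_le_of_forall_le _ _ fun i _ => ?_
    refine (natDegree_C_mul_X_pow_le _ _).trans ?_
    have := abs_le.1 (hB i); omega
  have dPA' : PA'.natDegree ≤ 2 * B := by
    refine natDegree_sum_le_of_forall_le _ _ fun i _ => ?_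
    refine (natDegree_C_mul_X_pow_le _ _).trans ?_
    have := abs_le.1 (hB i); omega
  set F : ℕ → ℂ := fun k => ∑ i, (c i : ℕ → ℂ) k * (ζ ^ (b i)) ^ k with hF
  have hzb : ∀ k, ζ ^ k ≠ 0 := fun k => pow_ne_zero _ hζ0
  have hconj : (starRingEnd ℂ) ζ = ζ⁻¹ := by
    rw [Complex.inv_def, Complex.normSq_eq_norm_sq, hζ]; simp
  have evPA : ∀ k, ev ζ k PA = (ζ ^ k) ^ B * F k := fun k => by
    rw [hPA, map_sum, hF, Finset.mul_sum]
    refine Finset.sum_congr rfl fun i _ => ?_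
    rw [map_mul, map_pow, ev_C, ev_X]
    have h1 : (ζ ^ k) ^ (b i + B).toNat = (ζ ^ k) ^ B * (ζ ^ (b i)) ^ k := by
      rw [← zpow_natCast (ζ ^ k) (b i + B).toNat, Int.toNat_of_nonneg (hb1 i),
        zpow_add₀ (hzb k), zpow_natCast, mul_comm, ← zpow_natCast (ζ ^ (b i)) k,
        ← zpow_natCast ζ k, ← zpow_mul, ← zpow_mul, mul_comm (k : ℤ) (b i)]
    rw [h1]; ring
  have evPA' : ∀ k, ev ζ k PA' = (ζ ^ k) ^ B * (starRingEnd ℂ) (F k) := fun k => by
    rw [hPA', map_sum, hF, map_sum, Finset.mul_sum]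
    refine Finset.sum_congr rfl fun i _ => ?_
    rw [map_mul, map_pow, ev_C, ev_X, hcc, map_mul, map_pow, map_zpow₀, hconj]
    have h1 : (ζ ^ k) ^ (B - b i).toNat = (ζ ^ k) ^ B * (ζ⁻¹ ^ (b i)) ^ k := by
      rw [← zpow_natCast (ζ ^ k) (B - b i).toNat, Int.toNat_of_nonneg (hb2 i),
        sub_eq_add_neg, zpow_add₀ (hzb k), zpow_natCast, ← zpow_natCast (ζ⁻¹ ^ (b i)) k,
        ← zpow_natCast ζ k, ← zpow_mul, ← zpow_mul, inv_zpow', mul_comm (k : ℤ) (-b i),
        neg_mul]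
    rw [h1]; ring
  set N : ℕ := 4 * B + 1 with hN
  set E : Fin (N + 1) × Fin (N + 1) → RR[X] := fun p =>
    X ^ ((2 * N - p.1 - p.2) * B) * PA ^ (p.1 : ℕ) * PA' ^ (p.2 : ℕ) with hE
  have dE : ∀ p, (E p).natDegree ≤ 4 * N * B := fun p => by
    have hp1 := p.1.2
    have hp2 := p.2.2
    have h1 : (E p).natDegree ≤ (2 * N - p.1 - p.2) * B + p.1 * (2 * B) + p.2 * (2 * B) := by
      refine (natDegree_mul_le).trans (Nat.add_le_add ((natDegree_mul_le).trans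
        (Nat.add_le_add (natDegree_X_pow_le _) ?_)) ?_)
      · exact (natDegree_pow_le).trans (Nat.mul_le_mul_left _ dPA)
      · exact (natDegree_pow_le).trans (Nat.mul_le_mul_left _ dPA')
    refine h1.trans ?_
    have h2 : (2 * N - p.1 - p.2) * B + p.1 * (2 * B) + p.2 * (2 * B)
        = ((2 * N - p.1 - p.2) + 2 * p.1 + 2 * p.2) * B := by ring
    rw [h2]
    exact Nat.mul_le_mul_right _ (by omega)
  have evE : ∀ p k, ev ζ k (E p) = (ζ ^ k) ^ (2 * N * B) * (F k ^ (p.1 : ℕ) *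
      (starRingEnd ℂ) (F k) ^ (p.2 : ℕ)) := fun p k => by
    have hp1 := p.1.2
    have hp2 := p.2.2
    rw [hE]
    simp only [map_mul, map_pow, ev_X, evPA, evPA']
    have h2 : 2 * N * B = (2 * N - p.1 - p.2) * B + B * p.1 + B * p.2 := by
      have : 2 * N = (2 * N - p.1 - p.2) + p.1 + p.2 := by omega
      conv_lhs => rw [this]
      ring
    rw [h2, pow_add, pow_add, mul_pow, mul_pow, ← pow_mul (ζ ^ k) B, ← pow_mul (ζ ^ k) B]
    ring
  -- the linear map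
  let Φ : (Fin (N + 1) × Fin (N + 1) → RR) →ₗ[RR] (Fin (4 * N * B + 1) → RR) :=
    { toFun := fun D j => ∑ p, D p * (E p).coeff j
      map_add' := fun D D' => by
        funext j
        simp only [Pi.add_apply, add_mul, Finset.sum_add_distrib]
      map_smul' := fun a D => by
        funext j
        simp only [Pi.smul_apply, smul_eq_mul, RingHom.id_apply, Finset.mul_sum, mul_assoc] }
  have hΦ : ¬ Function.Injective Φ := by
    intro hinj
    have := card_le_of_injective RR Φ hinj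
    rw [Fintype.card_prod, Fintype.card_fin, Fintype.card_fin] at this
    rw [hN] at this
    nlinarith
  rw [Function.Injective] at hΦ
  push Not at hΦ
  obtain ⟨D1, D2, hD12, hne⟩ := hΦ
  set D := D1 - D2 with hD
  have hΦD : Φ D = 0 := by rw [hD, map_sub, hD12, sub_self]
  have hG : ∑ p, C (D p) * E p = 0 := by
    refine Polynomial.ext fun j => ?_
    by_cases hj : j < 4 * N * B + 1
    · have := congrFun hΦD ⟨j, hj⟩
      rw [finsetSum_coeff]
      simp only [coeff_C_mul, coeff_zero]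
      exact this
    · rw [coeff_zero]
      refine coeff_eq_zero_of_natDegree_lt ?_
      have h3 : (∑ p, C (D p) * E p).natDegree ≤ 4 * N * B :=
        natDegree_sum_le_of_forall_le _ _ fun p _ => (natDegree_C_mul_le _ _).trans (dE p)
      exact lt_of_le_of_lt h3 (by omega)
  refine ⟨N, D, sub_ne_zero.2 hne, fun k => ?_⟩
  have h1 := congrArg (ev ζ k) hG
  rw [map_zero, map_sum] at h1
  simp only [map_mul, ev_C, evE] at h1
  have h2 : (ζ ^ k) ^ (2 * N * B) * ∑ p, (D p : ℕ → ℂ) k * (F k) ^ (p.1 : ℕ) *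
        ((starRingEnd ℂ) (F k)) ^ (p.2 : ℕ) = 0 := by
    rw [← h1, Finset.mul_sum]
    refine Finset.sum_congr rfl fun p _ => ?_
    ring
  exact (mul_eq_zero.1 h2).resolve_left (pow_ne_zero _ (hzb k))

end Pool.Agent.X187.WN
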