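import Mathlib

/-! The ring of exponential polynomials with positive bases. -/

namespace Pool.Agent.X187.WN

open Polynomial Filter Topology

/-- monomial `k^d ρ^k` -/
noncomputable def mono (p : ℕ × ℝ) (k : ℕ) : ℂ := (k : ℂ) ^ p.1 * (p.2 : ℂ) ^ k

lemma mono_mul (p p' : ℕ × ℝ) : mono p * mono p' = mono (p.1 + p'.1, p.2 * p'.2) := by
  funext k; simp only [mono, Pi.mul_apply, pow_add, Complex.ofReal_mul, mul_pow]; ring

/-- the monoid of monomials -/
noncomputable def MonoSet : Submonoid (ℕ → ℂ) where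
  carrier := {c | ∃ p : ℕ × ℝ, 0 < p.2 ∧ c = mono p}
  one_mem' := ⟨(0, 1), by norm_num, by funext k; simp [mono]⟩
  mul_mem' := by
    rintro _ _ ⟨p, hp, rfl⟩ ⟨p', hp', rfl⟩
    exact ⟨_, mul_pos hp hp', mono_mul p p'⟩

/-- the algebra of exponential polynomials with positive bases -/
noncomputable def RR : Subalgebra ℂ (ℕ → ℂ) := Algebra.adjoin ℂ (MonoSet : Set (ℕ → ℂ))

lemma mem_RR {c : ℕ → ℂ} : c ∈ RR ↔ c ∈ Submodule.span ℂ (MonoSet : Set (ℕ → ℂ)) := by
  have h := Algebra.adjoin_eq_span (R := ℂ) (MonoSet : Set (ℕ → ℂ))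
  rw [Submonoid.closure_eq] at h
  rw [← h]; rfl

lemma mono_mem {p : ℕ × ℝ} (hp : 0 < p.2) : mono p ∈ RR :=
  Algebra.subset_adjoin ⟨p, hp, rfl⟩

lemma poly_mem (P : ℂ[X]) {ρ : ℝ} (hρ : 0 < ρ) :
    (fun k : ℕ => P.eval (k : ℂ) * (ρ : ℂ) ^ k) ∈ RR := by
  have h : (fun k : ℕ => P.eval (k : ℂ) * (ρ : ℂ) ^ k)
      = ∑ d ∈ P.support, P.coeff d • mono (d, ρ) := by
    funext k
    rw [Finset.sum_apply, eval_eq_sum, Polynomial.sum, Finset.sum_mul]
    refine Finset.sum_congr rfl fun d _ => ?_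
    simp only [Pi.smul_apply, mono, smul_eq_mul]; ring
  rw [h]
  exact Subalgebra.sum_mem _ fun d _ => Subalgebra.smul_mem _ (mono_mem (p := (d, ρ)) hρ) _

lemma conj_poly_mem (P : ℂ[X]) {ρ : ℝ} (hρ : 0 < ρ) :
    (fun k : ℕ => (starRingEnd ℂ) (P.eval (k : ℂ) * (ρ : ℂ) ^ k)) ∈ RR := by
  have h : (fun k : ℕ => (starRingEnd ℂ) (P.eval (k : ℂ) * (ρ : ℂ) ^ k))
      = fun k : ℕ => (P.map (starRingEnd ℂ)).eval (k : ℂ) * (ρ : ℂ) ^ k := by
    funext k
    rw [map_mul, map_pow, Complex.conj_ofReal]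
    congr 1
    have hk : ((k : ℕ) : ℂ) = (starRingEnd ℂ) ((k : ℕ) : ℂ) := by simp
    rw [eval_map]
    conv_rhs => rw [hk, eval₂_hom]
  rw [h]
  exact poly_mem _ hρ

lemma rep_RR {c : ℕ → ℂ} (hc : c ∈ RR) : ∃ g : (ℕ × ℝ) →₀ ℂ, (∀ p ∈ g.support, 0 < p.2) ∧
    ∀ k, c k = g.sum fun p z => z * mono p k := by
  classical
  rw [mem_RR] at hc
  induction hc using Submodule.span_induction with
  | mem x hx =>
    obtain ⟨p, hp, rfl⟩ := hx
    refine ⟨Finsupp.single p 1, fun p' hp' => ?_, fun k => ?_⟩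
    · have := Finsupp.support_single_subset hp'
      rw [Finset.mem_singleton] at this
      rw [this]; exact hp
    · rw [Finsupp.sum_single_index (by simp), one_mul]
  | zero => exact ⟨0, by simp, fun k => by simp⟩
  | add x y _ _ hx hy =>
    obtain ⟨g, hg, h⟩ := hx
    obtain ⟨g', hg', h'⟩ := hy
    refine ⟨g + g', fun p hp => ?_, fun k => ?_⟩
    · have := Finsupp.support_add hp
      rw [Finset.mem_union] at this
      exact this.elim (hg p) (hg' p)
    · rw [Finsupp.sum_add_index' (by simp) (fun _ _ _ => by rw [add_mul]), Pi.add_apply, h, h']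
  | smul a x _ hx =>
    obtain ⟨g, hg, h⟩ := hx
    refine ⟨a • g, fun p hp => hg p (Finsupp.support_smul hp), fun k => ?_⟩
    rw [Finsupp.sum_smul_index' (by simp), Pi.smul_apply, h, Finsupp.smul_sum]
    refine Finsupp.sum_congr fun p _ => ?_
    simp only [smul_eq_mul]; ring

lemma norm_mono {p : ℕ × ℝ} (hp : 0 < p.2) (k : ℕ) : ‖mono p k‖ = (k : ℝ) ^ p.1 * p.2 ^ k := by
  rw [mono, norm_mul, norm_pow, norm_pow, Complex.norm_natCast, Complex.norm_real,
    Real.norm_of_nonneg hp.le]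

lemma mono_ne {p : ℕ × ℝ} (hp : 0 < p.2) {k : ℕ} (hk : 1 ≤ k) : mono p k ≠ 0 := by
  have : (k : ℂ) ≠ 0 := by exact_mod_cast (by omega : k ≠ 0)
  have h2 : (p.2 : ℂ) ≠ 0 := by exact_mod_cast hp.ne'
  exact mul_ne_zero (pow_ne_zero _ this) (pow_ne_zero _ h2)

lemma ratio_tendsto {p P : ℕ × ℝ} (hp : 0 < p.2) (hP : 0 < P.2)
    (h : p.2 < P.2 ∨ (p.2 = P.2 ∧ p.1 < P.1)) :
    Tendsto (fun k => mono p k / mono P k) atTop (𝓝 0) := by
  rw [tendsto_zero_iff_norm_tendsto_zero]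
  rcases h with h | ⟨h1, h2⟩
  · have hr : |p.2 / P.2| < 1 := by
      rw [abs_of_pos (div_pos hp hP), div_lt_one hP]; exact h
    refine squeeze_zero' (Eventually.of_forall fun _ => norm_nonneg _) ?_
      (tendsto_pow_const_mul_const_pow_of_abs_lt_one p.1 hr)
    filter_upwards [eventually_ge_atTop 1] with k hk
    have hk' : (1 : ℝ) ≤ k := by exact_mod_cast hk
    rw [norm_div, norm_mono hp, norm_mono hP, div_pow, mul_div_assoc']
    have h3 : (1 : ℝ) ≤ (k : ℝ) ^ P.1 := one_le_pow₀ hk'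
    have h4 : 0 < P.2 ^ k := pow_pos hP k
    refine div_le_div_of_nonneg_left (by positivity) h4 ?_
    nlinarith
  · have h3 : Tendsto (fun k : ℕ => ((k : ℝ)⁻¹) ^ (P.1 - p.1)) atTop (𝓝 0) := by
      have := (tendsto_inv_atTop_nhds_zero_nat (𝕜 := ℝ)).pow (P.1 - p.1)
      rwa [zero_pow (by omega)] at this
    refine h3.congr' ?_
    filter_upwards [eventually_ge_atTop 1] with k hk
    have hk' : (0 : ℝ) < k := by exact_mod_cast hk
    rw [norm_div, norm_mono hp, norm_mono hP, h1, mul_div_mul_right _ _ (pow_pos hP k).ne']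
    have h4 : (k : ℝ) ^ P.1 = (k : ℝ) ^ p.1 * (k : ℝ) ^ (P.1 - p.1) := by
      rw [← pow_add]; congr 1; omega
    rw [h4, inv_pow]
    field_simp

lemma asym {g : (ℕ × ℝ) →₀ ℂ} (hg : ∀ p ∈ g.support, 0 < p.2) {P : ℕ × ℝ} (hP : 0 < P.2)
    (hmax : ∀ p ∈ g.support, p.2 < P.2 ∨ (p.2 = P.2 ∧ p.1 ≤ P.1)) :
    Tendsto (fun k => (g.sum fun p z => z * mono p k) / mono P k) atTop (𝓝 (g P)) := by
  classical
  have h1 : g P = ∑ p ∈ g.support, g p * (if p = P then 1 else 0) := by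
    rw [Finset.sum_eq_single P]
    · rw [if_pos rfl, mul_one]
    · intro p _ hp; rw [if_neg hp, mul_zero]
    · intro h; rw [Finsupp.notMem_support_iff.1 h, zero_mul]
  rw [h1]
  simp only [Finsupp.sum, Finset.sum_div]
  refine tendsto_finsetSum _ fun p hp => ?_
  simp only [mul_div_assoc]
  refine Tendsto.const_mul _ ?_
  split_ifs with h
  · subst h
    refine (tendsto_const_nhds (x := (1 : ℂ))).congr' ?_
    filter_upwards [eventually_ge_atTop 1] with k hk
    rw [div_self (mono_ne hP hk)]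
  · refine ratio_tendsto (hg p hp) hP ?_
    rcases hmax p hp with h2 | ⟨h2, h3⟩
    · exact Or.inl h2
    · refine Or.inr ⟨h2, lt_of_le_of_ne h3 fun h4 => h ?_⟩
      exact Prod.ext h4 h2

theorem RR_family {ι : Type} [Fintype ι] (c : ι → RR) (hc : c ≠ 0) :
    ∃ (s : ℕ → ℂ) (q : ι → ℂ), (∀ᶠ k in atTop, s k ≠ 0) ∧
      (∀ i, Tendsto (fun k => (c i : ℕ → ℂ) k / s k) atTop (𝓝 (q i))) ∧ ∃ i, q i ≠ 0 := by
  classical
  choose g hg hgc using fun i => rep_RR (c i).2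
  set U : Finset (ℕ × ℝ) := Finset.univ.biUnion fun i => (g i).support with hU
  have hUne : U.Nonempty := by
    by_contra hne
    rw [Finset.not_nonempty_iff_eq_empty] at hne
    apply hc
    funext i
    have h1 : g i = 0 := by
      rw [← Finsupp.support_eq_empty]
      refine Finset.subset_empty.1 ?_
      rw [← hne, hU]
      exact Finset.subset_biUnion_of_mem (fun i => (g i).support) (Finset.mem_univ i)
    ext k
    rw [hgc i k, h1]; simp
  obtain ⟨P, hPU, hmax⟩ := Finset.exists_max_image U (fun p => toLex (p.2, p.1)) hUne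
  obtain ⟨i₀, _, hi₀⟩ := Finset.mem_biUnion.1 hPU
  have hP : 0 < P.2 := hg i₀ P hi₀
  refine ⟨mono P, fun i => g i P, ?_, fun i => ?_, i₀, Finsupp.mem_support_iff.1 hi₀⟩
  · filter_upwards [eventually_ge_atTop 1] with k hk using mono_ne hP hk
  · simp only [hgc i]
    refine asym (hg i) hP fun p hp => ?_
    have h1 := hmax p (Finset.mem_biUnion.2 ⟨i, Finset.mem_univ i, hp⟩)
    rw [Prod.Lex.le_iff] at h1
    exact h1

end Pool.Agent.X187.WN
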