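import Pool.Agent.X187.WN.Elim

/-! Cluster points of sequences satisfying an algebraic relation are thin at infinity. -/

namespace Pool.Agent.X187.WN

open Polynomial Filter Topology

/-- the cluster points are thin at infinity -/
def Thin (a : ℕ → ℂ) : Prop :=
  ∃ Z : Set ℂ, Z.Finite ∧ ∀ u : ℂ, ‖u‖ = 1 → u ∉ Z →
    ∃ ρ₀ : ℝ, ∀ ρ ≥ ρ₀, ¬ MapClusterPt ((ρ : ℂ) * u) atTop a

lemma thin_of_tendsto {a : ℕ → ℂ} (h : Tendsto (fun k => ‖a k‖) atTop atTop) : Thin a := by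
  refine ⟨∅, Set.finite_empty, fun u _ _ => ⟨0, fun ρ _ hc => ?_⟩⟩
  obtain ⟨ψ, hψ, hlim⟩ := hc.tendsto_subseq
  have h1 := h.comp hψ.tendsto_atTop
  have h2 := hlim.norm
  exact not_tendsto_nhds_of_tendsto_atTop h1 _ h2

theorem thin_of_rel {F β : ℕ → ℂ} {C : ℝ} (hβ : ∀ k, ‖β k‖ ≤ C) {N : ℕ}
    {D : Fin (N + 1) × Fin (N + 1) → RR} (hD : D ≠ 0)
    (hrel : ∀ k : ℕ, ∑ p, (D p : ℕ → ℂ) k * (F k) ^ (p.1 : ℕ) *
        ((starRingEnd ℂ) (F k)) ^ (p.2 : ℕ) = 0) :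
    Thin (fun k => F k + β k) := by
  classical
  obtain ⟨s, q, hs, hq, p₀, hp₀⟩ := RR_family D hD
  -- zero set
  have hzero : ∀ z, MapClusterPt z atTop (fun k => F k + β k) →
      ∃ z', ‖z' - z‖ ≤ C ∧ ∑ p, q p * z' ^ (p.1 : ℕ) * ((starRingEnd ℂ) z') ^ (p.2 : ℕ) = 0 := by
    intro z hz
    obtain ⟨ψ, hψ, hlim⟩ := hz.tendsto_subseq
    have hbd : Bornology.IsBounded (Set.range fun n => F (ψ n)) := by
      have h1 := (Metric.isBounded_range_of_tendsto _ hlim)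
      obtain ⟨R, hR⟩ := h1.exists_norm_le
      refine (isBounded_iff_forall_norm_le).2 ⟨R + C, ?_⟩
      rintro _ ⟨n, rfl⟩
      have h2 : ‖F (ψ n) + β (ψ n)‖ ≤ R := hR _ ⟨n, rfl⟩
      calc ‖F (ψ n)‖ = ‖(F (ψ n) + β (ψ n)) - β (ψ n)‖ := by rw [add_sub_cancel_right]
        _ ≤ ‖F (ψ n) + β (ψ n)‖ + ‖β (ψ n)‖ := norm_sub_le _ _
        _ ≤ R + C := add_le_add h2 (hβ _)
    obtain ⟨z', _, χ, hχ, hlim'⟩ := tendsto_subseq_of_bounded hbd (fun n => ⟨n, rfl⟩)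
    refine ⟨z', ?_, ?_⟩
    · have h1 := (hlim'.sub (hlim.comp hχ.tendsto_atTop)).norm
      refine le_of_tendsto h1 (Eventually.of_forall fun n => ?_)
      simp only [Function.comp_apply]
      have : F (ψ (χ n)) - (F (ψ (χ n)) + β (ψ (χ n))) = -β (ψ (χ n)) := by ring
      rw [this, norm_neg]; exact hβ _
    · have hφ : Tendsto (fun n => ψ (χ n)) atTop atTop := hψ.tendsto_atTop.comp hχ.tendsto_atTop
      have h1 : Tendsto (fun n => ∑ p, ((D p : ℕ → ℂ) (ψ (χ n)) / s (ψ (χ n))) *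
          (F (ψ (χ n))) ^ (p.1 : ℕ) * ((starRingEnd ℂ) (F (ψ (χ n)))) ^ (p.2 : ℕ)) atTop
          (𝓝 (∑ p, q p * z' ^ (p.1 : ℕ) * ((starRingEnd ℂ) z') ^ (p.2 : ℕ))) := by
        refine tendsto_finsetSum _ fun p _ => ?_
        refine (((hq p).comp hφ).mul (Tendsto.pow hlim' _)).mul ?_
        exact Tendsto.pow ((Complex.continuous_conj.tendsto z').comp hlim') _
      refine tendsto_nhds_unique h1 ?_
      refine tendsto_const_nhds.congr' ?_
      filter_upwards [hφ.eventually hs] with n hn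
      have h2 := hrel (ψ (χ n))
      have h3 : ∑ p, ((D p : ℕ → ℂ) (ψ (χ n)) / s (ψ (χ n))) *
          (F (ψ (χ n))) ^ (p.1 : ℕ) * ((starRingEnd ℂ) (F (ψ (χ n)))) ^ (p.2 : ℕ)
          = (∑ p, (D p : ℕ → ℂ) (ψ (χ n)) * (F (ψ (χ n))) ^ (p.1 : ℕ) *
            ((starRingEnd ℂ) (F (ψ (χ n)))) ^ (p.2 : ℕ)) / s (ψ (χ n)) := by
        rw [Finset.sum_div]
        refine Finset.sum_congr rfl fun p _ => ?_
        ring
      rw [h3, h2, zero_div]
  -- top degree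
  obtain ⟨p₁, hp₁, hmax⟩ := Finset.exists_max_image
    (Finset.univ.filter fun p : Fin (N + 1) × Fin (N + 1) => q p ≠ 0)
    (fun p => (p.1 : ℕ) + p.2) ⟨p₀, by simpa using hp₀⟩
  rw [Finset.mem_filter] at hp₁
  set d : ℕ := (p₁.1 : ℕ) + p₁.2 with hd
  have hbig : ∀ p : Fin (N + 1) × Fin (N + 1), d < (p.1 : ℕ) + p.2 → q p = 0 := fun p hp => by
    by_contra hne
    have := hmax p (by simpa using hne)
    omega
  set R : ℂ[X] := ∑ p ∈ Finset.univ.filter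
    (fun p : Fin (N + 1) × Fin (N + 1) => (p.1 : ℕ) + p.2 = d), Polynomial.C (q p) * X ^ (2 * (p.1 : ℕ)) with hR
  have hR0 : R ≠ 0 := by
    intro h0
    have h1 : R.coeff (2 * (p₁.1 : ℕ)) = q p₁ := by
      rw [hR, finsetSum_coeff, Finset.sum_eq_single p₁]
      · rw [coeff_C_mul, coeff_X_pow, if_pos rfl, mul_one]
      · intro p hp hne
        rw [Finset.mem_filter] at hp
        rw [coeff_C_mul, coeff_X_pow, if_neg, mul_zero]
        intro heq
        apply hne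
        have e1 : (p.1 : ℕ) = p₁.1 := by omega
        have e2 : (p.2 : ℕ) = p₁.2 := by omega
        exact Prod.ext (Fin.ext e1) (Fin.ext e2)
      · intro h; exact absurd (by simp [hd]) h
    rw [h0, coeff_zero] at h1
    exact hp₁.2 h1.symm
  refine ⟨{u | R.eval u = 0}, ?_, fun u hu hZ => ?_⟩
  · have : {u | R.eval u = 0} = (R.roots.toFinset : Set ℂ) := by
      ext u; simp [hR0]
    rw [this]; exact Finset.finite_toSet _
  by_contra hcon
  push Not at hcon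
  choose ρ hρ hcl using fun n : ℕ => hcon (n + 1)
  choose z hz1 hz2 using fun n : ℕ => hzero _ (hcl n)
  have hρpos : ∀ n, 0 < ρ n := fun n => by
    have := hρ n
    have h2 : (0 : ℝ) ≤ n := Nat.cast_nonneg n
    linarith
  have hρ0 : ∀ n, (ρ n : ℂ) ≠ 0 := fun n => by exact_mod_cast (hρpos n).ne'
  have hρinv : Tendsto (fun n => (ρ n)⁻¹) atTop (𝓝 0) := by
    refine squeeze_zero (fun n => inv_nonneg.2 (hρpos n).le) (fun n => ?_)
      tendsto_one_div_add_atTop_nhds_zero_nat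
    rw [one_div]
    exact inv_anti₀ (by positivity) (hρ n)
  have hw : Tendsto (fun n => z n / ρ n) atTop (𝓝 u) := by
    rw [tendsto_iff_norm_sub_tendsto_zero]
    have h1 : Tendsto (fun n => C * (ρ n)⁻¹) atTop (𝓝 0) := by
      have := hρinv.const_mul C
      rwa [mul_zero] at this
    refine squeeze_zero (fun _ => norm_nonneg _) (fun n => ?_) h1
    have h2 : z n / ρ n - u = (z n - ρ n * u) / ρ n := by field_simp [hρ0 n]
    rw [h2, norm_div, Complex.norm_real, Real.norm_of_nonneg (hρpos n).le, div_eq_mul_inv]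
    exact mul_le_mul_of_nonneg_right (hz1 n) (inv_nonneg.2 (hρpos n).le)
  have hlim : Tendsto (fun n => ∑ p : Fin (N + 1) × Fin (N + 1),
      q p * (z n / ρ n) ^ (p.1 : ℕ) * ((starRingEnd ℂ) (z n / ρ n)) ^ (p.2 : ℕ) *
        (if d < (p.1 : ℕ) + p.2 then 1 else ((ρ n : ℂ)⁻¹) ^ (d - ((p.1 : ℕ) + p.2)))) atTop
      (𝓝 (∑ p : Fin (N + 1) × Fin (N + 1), q p * u ^ (p.1 : ℕ) *
        ((starRingEnd ℂ) u) ^ (p.2 : ℕ) * (if (p.1 : ℕ) + p.2 = d then 1 else 0))) := by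
    refine tendsto_finsetSum _ fun p _ => ?_
    by_cases h1 : d < (p.1 : ℕ) + p.2
    · rw [hbig p h1]; simp
    · refine ((tendsto_const_nhds.mul (hw.pow _)).mul
        (((Complex.continuous_conj.tendsto u).comp hw).pow _)).mul ?_
      simp only [if_neg h1]
      split_ifs with h2
      · rw [h2, Nat.sub_self]; simp
      · have h3 : Tendsto (fun n => ((ρ n : ℂ)⁻¹)) atTop (𝓝 0) := by
          have := (Complex.continuous_ofReal.tendsto 0).comp hρinv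
          simpa [Function.comp_def] using this
        have := h3.pow (d - ((p.1 : ℕ) + p.2))
        rwa [zero_pow (by omega)] at this
  have hzero2 : ∀ n, ∑ p : Fin (N + 1) × Fin (N + 1),
      q p * (z n / ρ n) ^ (p.1 : ℕ) * ((starRingEnd ℂ) (z n / ρ n)) ^ (p.2 : ℕ) *
        (if d < (p.1 : ℕ) + p.2 then 1 else ((ρ n : ℂ)⁻¹) ^ (d - ((p.1 : ℕ) + p.2))) = 0 := by
    intro n
    have h1 : ∑ p : Fin (N + 1) × Fin (N + 1),
      q p * (z n / ρ n) ^ (p.1 : ℕ) * ((starRingEnd ℂ) (z n / ρ n)) ^ (p.2 : ℕ) *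
        (if d < (p.1 : ℕ) + p.2 then 1 else ((ρ n : ℂ)⁻¹) ^ (d - ((p.1 : ℕ) + p.2)))
        = (∑ p, q p * (z n) ^ (p.1 : ℕ) * ((starRingEnd ℂ) (z n)) ^ (p.2 : ℕ)) / (ρ n : ℂ) ^ d := by
      rw [Finset.sum_div]
      refine Finset.sum_congr rfl fun p _ => ?_
      by_cases h1 : d < (p.1 : ℕ) + p.2
      · rw [hbig p h1]; simp
      · rw [if_neg h1, map_div₀, Complex.conj_ofReal, div_pow, div_pow, inv_pow]
        have h2 : (ρ n : ℂ) ^ d = (ρ n : ℂ) ^ (p.1 : ℕ) * (ρ n : ℂ) ^ (p.2 : ℕ) *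
            (ρ n : ℂ) ^ (d - ((p.1 : ℕ) + p.2)) := by
          rw [← pow_add, ← pow_add]; congr 1; omega
        rw [h2]
        have h3 := hρ0 n
        field_simp
    rw [h1, hz2, zero_div]
  have hlim0 := tendsto_nhds_unique hlim (by simp only [hzero2]; exact tendsto_const_nhds)
  apply hZ
  show R.eval u = 0
  have huu : u * (starRingEnd ℂ) u = 1 := by
    rw [Complex.mul_conj, Complex.normSq_eq_norm_sq, hu]; simp
  have h5 : R.eval u = u ^ d * ∑ p : Fin (N + 1) × Fin (N + 1), q p * u ^ (p.1 : ℕ) *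
        ((starRingEnd ℂ) u) ^ (p.2 : ℕ) * (if (p.1 : ℕ) + p.2 = d then 1 else 0) := by
    rw [hR, eval_finsetSum, Finset.sum_filter, Finset.mul_sum]
    refine Finset.sum_congr rfl fun p _ => ?_
    split_ifs with h1
    · rw [eval_mul, eval_C, eval_pow, eval_X, ← h1, pow_add]
      have h2 : u ^ (p.2 : ℕ) * ((starRingEnd ℂ) u) ^ (p.2 : ℕ) = 1 := by
        rw [← mul_pow, huu, one_pow]
      have h3 : u ^ (2 * (p.1 : ℕ)) = u ^ (p.1 : ℕ) * u ^ (p.1 : ℕ) := by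
        rw [← pow_add]; congr 1; ring
      rw [h3]
      calc q p * (u ^ (p.1 : ℕ) * u ^ (p.1 : ℕ))
          = q p * u ^ (p.1 : ℕ) * u ^ (p.1 : ℕ) *
            (u ^ (p.2 : ℕ) * ((starRingEnd ℂ) u) ^ (p.2 : ℕ)) := by rw [h2]; ring
        _ = _ := by ring
    · ring
  rw [h5, hlim0, mul_zero]

end Pool.Agent.X187.WN
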